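import Mathlib
import Pool.Agent.Y582.LG.WMain

set_option autoImplicit false

/-!
# A weakly compact cardinal suffices: paths of length at most four, successors of all regular
uncountable cardinals, all numbers of colours
-/

namespace Pool.Agent.Results.MP_b3ce86_lc.ShortPaths

open Cardinal Pool.Agent.Helper669.Forcing Pool.Agent.Helper669.K Pool.Agent.Helper669.U
  Pool.Agent.Helper669.V Pool.Agent.Y582.LG

/-- `κ` is weakly compact: it is inaccessible and every colouring of the pairs of elements of `κ`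
with two colours has a homogeneous set of size `κ`. -/
def WeaklyCompact (κ : Cardinal.{0}) : Prop :=
  κ.IsInaccessible ∧ ∀ c : κ.ord.ToType → κ.ord.ToType → Bool, ∃ H : Set κ.ord.ToType, #H = κ ∧
    ∃ i, ∀ x ∈ H, ∀ y ∈ H, x < y → c x y = i

/-- Let `κ` be weakly compact and let `τ < κ` be any regular uncountable cardinal. There is a
forcing notion `P` (the Levy collapse `Col(τ, <κ)`), every condition of which forces that the
regular cardinals up to `τ` and `κ` stay regular and that every cardinal below `κ` has cardinality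
at most `τ` (so `κ = τ⁺`), that `2^ν ≤ τ` for all `ν < τ`, and that `κ →_{hc,<5} (κ)²_θ` for all
`θ < τ` simultaneously: for every colouring of the pairs with `θ` colours there are a set `A` of
size `κ` and a colour `i` such that for every `C ⊆ A` of smaller size any two points of `A ∖ C`
are joined inside `A ∖ C` by a path of length at most `4` all of whose edges have colour `i`. For
`τ = ℵ₁` and `θ = ω` this gives `ℵ₂ →_hc (ℵ₂)²_ω`. -/
theorem result (κ : Cardinal.{0}) (h : WeaklyCompact κ) (τ : Cardinal.{0}) (hτ : τ.IsRegular)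
    (hτ0 : ℵ₀ < τ) (hτκ : τ < κ) :
    ∃ (P : Type) (_ : Preorder P), Nonempty P ∧ ∀ p : P,
      (∀ ρ : Cardinal.{0}, ρ.IsRegular → ρ ≤ τ → p ∈ StaysRegular P ρ) ∧
      p ∈ StaysRegular P κ ∧ p ∈ CollapsedTo P τ κ ∧
      (∀ ν < τ, p ∈ PowOnto P ν τ) ∧
      ∀ θ < τ, p ∈ HcCol P κ.ord.ToType θ.out 5 := by
  classical
  have hκ : κ.IsRegular := ⟨h.1.aleph0_lt.le, h.1.le_cof_ord⟩
  have hK : Pool.Agent.H833R3.Levy.Inac κ.ord.ToType := Pool.Agent.H833R3.Levy.inac_toType h.1
  have hP : Pool.Agent.H833R3.Levy.PairPart κ.ord.ToType := by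
    intro c
    obtain ⟨H, hH, i, hi⟩ := h.2 fun x y => decide (c x y)
    refine ⟨H, by rw [hH, mk_toType, card_ord], ?_⟩
    cases i
    · exact Or.inr fun x hx y hy hxy => by simpa using hi x hx y hy hxy
    · exact Or.inl fun x hx y hy hxy => by simpa using hi x hx y hy hxy
  have hKκ : #κ.ord.ToType = κ := Cardinal.mk_ord_toType κ
  have hW : #τ.ord.ToType < #κ.ord.ToType := by
    rw [Cardinal.mk_ord_toType, hKκ]
    exact hτκ
  have hτK : τ < #κ.ord.ToType := by rw [hKκ]; exact hτκ
  refine ⟨GC τ τ.ord.ToType κ.ord.ToType, inferInstance,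
    ⟨⟨∅, by simpa using (aleph0_pos.trans hτ0), fun _ _ _ _ h => absurd h (by simp),
      fun _ _ _ h => absurd h (by simp)⟩⟩, fun p => ⟨?_, ?_, ?_, ?_, ?_⟩⟩
  · intro ρ hρ hle
    exact GC.staysRegular_le hτ hρ hle p
  · exact staysRegular_of_cc' hκ (fun ι f hι => Wc.cc hK hP hW hτ hτK ι f
      (by rw [hKκ]; exact hι)) p
  · exact GC.collapsed hτ0.le p
  · intro ν hν
    exact GC.powOnto hτ hν (h.1.isStrongPrelimit (hν.trans hτκ)) p
  · intro θ hθ
    exact Wc.hc_five hκ hK hP hτ hτ0 hτκ (by rw [Cardinal.mk_out]; exact hθ) p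

end Pool.Agent.Results.MP_b3ce86_lc.ShortPaths
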